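import Mathlib
import Pool.Agent.Y902.FB.Main

/-!
# Few solutions of the Fermat-Catalan equation when they are counted by their bases

For every `ε > 0` there is `R` such that for all large `Y` at most `Y ^ ε` value triples
`(a ^ m, b ^ n, c ^ k)` come from solutions of `a ^ m + b ^ n = c ^ k` with pairwise coprime
positive bases `a, b, c ≤ Y` and exponents `m, n, k ≥ 2`, at least one of which is at least `R`.
Apart from this the exponents are free: they are not bounded in terms of `Y`, and the values are not
bounded either.

Method. Linear forms in two logarithms (`2`-adic and archimedean) bound the exponents of the bases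
`≥ 2` by a power of `log Y`, so that it is enough to treat one triple of exponents. The points on the
surface `x ^ m + y ^ n = z ^ k` are covered by `Y ^ ε` surfaces of bounded degree (the `p`-adic
determinant method, by the pigeonhole principle). The weighted Euler operator is used to make the
intersections transversal, or to find divisors of two of the bases. On a curve so obtained the points
of a residue class modulo `q` satisfy relations of bounded degree between two of the coordinates. When
a class has more than `C max (m, n, k)` points the tangent vectors of the curve at the integral points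
satisfy these relations exactly, and with the coprimality this gives a power `a ^ (m - 1)` which
divides a small nonzero number. Exponents of Fermat type (bounded multiples of each other's) and the
case of two small exponents are treated separately.
-/

set_option autoImplicit false

namespace Pool.Agent.Results.MP_2738db_nt.CountByBases

/-- The value triples `(a ^ m, b ^ n, c ^ k)` of the solutions of `a ^ m + b ^ n = c ^ k` with
pairwise coprime positive `a, b, c ≤ Y` and exponents at least `2`, at least one of which is at
least `R`. -/
def Triples (Y R : ℕ) : Set (ℕ × ℕ × ℕ) :=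
  {v | ∃ a b c m n k : ℕ, 0 < a ∧ 0 < b ∧ 0 < c ∧ a ≤ Y ∧ b ≤ Y ∧ c ≤ Y ∧
    Nat.Coprime a b ∧ Nat.Coprime a c ∧ Nat.Coprime b c ∧ 2 ≤ m ∧ 2 ≤ n ∧ 2 ≤ k ∧
    (R ≤ m ∨ R ≤ n ∨ R ≤ k) ∧ a ^ m + b ^ n = c ^ k ∧ v = (a ^ m, b ^ n, c ^ k)}

theorem result (ε : ℝ) (hε : 0 < ε) : ∃ R Y₀ : ℕ, ∀ Y : ℕ, Y₀ ≤ Y →
    (Triples Y R).Finite ∧ ((Triples Y R).ncard : ℝ) ≤ (Y : ℝ) ^ ε :=
  Pool.Agent.Y902.FB.main ε hε

end Pool.Agent.Results.MP_2738db_nt.CountByBases
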