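import Mathlib
import Pool.Agent.Y902.FB.ExR

/-!
# The exponents in the Fermat-Catalan equation are at most a power of the logarithm of the bases

There are absolute constants `C` and `κ` such that in every solution of `a ^ m + b ^ n = c ^ k` in
pairwise coprime positive integers with exponents at least `2` each exponent of a base `≥ 2` is at
most `C (log max (a, b, c)) ^ κ`. (A base `1` has arbitrary exponents; `c ≥ 2`.) In particular all
three values are at most `exp (C (log max (a, b, c)) ^ (κ + 1))`, and the largest base of a solution
with value `c ^ k = X` is at least `exp ((log X / C) ^ (1 / (κ + 1)))`.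

One of the bases is even. Its exponent is bounded by linear forms in two `2`-adic logarithms, and then
the two other powers are close to each other, and their exponents are bounded by linear forms in two
real logarithms.
-/

set_option autoImplicit false

namespace Pool.Agent.Results.MP_2738db_nt.ExponentBound

theorem result : ∃ (C : ℝ) (κ : ℕ), 0 < C ∧ ∀ a b c m n k : ℕ, 0 < a → 0 < b → 0 < c →
    Nat.Coprime a b → Nat.Coprime a c → Nat.Coprime b c → 2 ≤ m → 2 ≤ n → 2 ≤ k →
    a ^ m + b ^ n = c ^ k →
    (2 ≤ a → (m : ℝ) ≤ C * Real.log ((max a (max b c) : ℕ) : ℝ) ^ κ) ∧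
    (2 ≤ b → (n : ℝ) ≤ C * Real.log ((max a (max b c) : ℕ) : ℝ) ^ κ) ∧
    (k : ℝ) ≤ C * Real.log ((max a (max b c) : ℕ) : ℝ) ^ κ :=
  Pool.Agent.Y902.FB.exp_bound_real

end Pool.Agent.Results.MP_2738db_nt.ExponentBound
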