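import Mathlib
import Pool.Agent.Y353.PS.Fin

/-!
# Pairs of bases in short boxes: power saving, all exponents free

`Solves A B x y z C` says that `A ^ x + B ^ y = C ^ z` or `A ^ x + C ^ z = B ^ y` or `B ^ y + C ^ z = A ^ x` with
positive `x, y, C` and `z ≥ 2`. Consider the coprime pairs of bases `(A, B)` in a box with sides `X, Y ≥ N`,
situated anywhere up to the height `N ^ K`; the third base and the three exponents are free. There are absolute
constants `δ, c > 0` with the following properties for all `N ≥ N₀(K)`.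

* At most `N ^ (-δ) X Y` of the pairs have a solution in which `A B` has a prime factor at most `N ^ (1/40)`, or
  `min (x, y) ≤ exp ((log N) ^ K)`.
* At most `c X Y / (log N) ^ 2` of the pairs have any solution.

Moreover, for boxes of `k`-tuples `A` of bases with all sides at least `N` (and height at most `N ^ K`) at most
`N ^ (-δ)` times the number of all tuples have a relation `u + v = w ^ n` or `u = v + w ^ n` with `n ≥ 2` and
coprime products `u, v` of powers of the `A i`, `u v ≠ 1`, where `n` has a prime factor at most `(log N) ^ K`, or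
the exponents are at most `exp ((log N) ^ K)` and `w` has a prime factor at most `(log N) ^ K` (e.g. `u, v` odd).

The saving for small exponents comes from an arithmetic large sieve for the moduli `p ≡ 1 mod n` with `p - 1`
smooth, the supply of which, for `n` up to a power of `log N`, comes from Page's theorem and Linnik's method;
large exponents are bounded and then counted by linear forms in logarithms and a gap principle
(Thue-Siegel, Padé approximation).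
-/

set_option autoImplicit false

namespace Pool.Agent.Results.MP_2738db_nt.PowerSavingPairs

/-- `(x, y, z, C)` is a solution with the bases `A` and `B` -/
def Solves (A B x y z C : ℕ) : Prop :=
  0 < x ∧ 0 < y ∧ 2 ≤ z ∧ 0 < C ∧
    (A ^ x + B ^ y = C ^ z ∨ A ^ x + C ^ z = B ^ y ∨ B ^ y + C ^ z = A ^ x)

/-- the coprime pairs of the box `(a, a + X] × (b, b + Y]` -/
def Box (X Y a b : ℕ) : Set (ℕ × ℕ) :=
  {p | (a < p.1 ∧ p.1 ≤ a + X) ∧ (b < p.2 ∧ p.2 ≤ b + Y) ∧ Nat.Coprime p.1 p.2}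

/-- the tuple `A` has a relation `u ± v = w ^ n` between coprime products of powers, where `n` has a small
prime factor, or `w` has a small prime factor and the other exponents are not too large -/
def Rel (k N K : ℕ) (A : Fin k → ℕ) : Prop :=
  ∃ (x y : Fin k → ℕ) (w n : ℕ), 2 ≤ n ∧
    Nat.Coprime (∏ i, A i ^ x i) (∏ i, A i ^ y i) ∧ (∏ i, A i ^ x i) * (∏ i, A i ^ y i) ≠ 1 ∧
    (∏ i, A i ^ x i + ∏ i, A i ^ y i = w ^ n ∨ ∏ i, A i ^ x i = ∏ i, A i ^ y i + w ^ n) ∧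
    ((∃ q : ℕ, q.Prime ∧ q ∣ n ∧ (q : ℝ) ≤ Real.log N ^ K) ∨
      ((∀ i, (x i : ℝ) ≤ Real.exp (Real.log N ^ K) ∧ (y i : ℝ) ≤ Real.exp (Real.log N ^ K)) ∧
        ∃ p : ℕ, p.Prime ∧ p ∣ w ∧ (p : ℝ) ≤ Real.log N ^ K))

theorem result :
    (∃ δ c : ℝ, 0 < δ ∧ 0 < c ∧ ∀ K : ℕ, ∃ N₀ : ℕ, ∀ N : ℕ, N₀ ≤ N → ∀ X Y a b : ℕ,
      N ≤ X → N ≤ Y → a + X ≤ N ^ K → b + Y ≤ N ^ K →
      (({p ∈ Box X Y a b | ∃ x y z C : ℕ, Solves p.1 p.2 x y z C ∧
          ((∃ r : ℕ, r.Prime ∧ (r : ℝ) ≤ (N : ℝ) ^ (1 / 40 : ℝ) ∧ r ∣ p.1 * p.2) ∨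
            ((min x y : ℕ) : ℝ) ≤ Real.exp (Real.log N ^ K))}.ncard : ℕ) : ℝ) ≤
        (N : ℝ) ^ (-δ) * ((X : ℝ) * Y) ∧
      (({p ∈ Box X Y a b | ∃ x y z C : ℕ, Solves p.1 p.2 x y z C}.ncard : ℕ) : ℝ) ≤
        c * ((X : ℝ) * Y) / Real.log N ^ 2) ∧
    (∃ δ : ℝ, 0 < δ ∧ ∀ k K : ℕ, ∃ N₀ : ℕ, ∀ N : ℕ, N₀ ≤ N → ∀ a M : Fin k → ℕ,
      (∀ i, N ≤ M i) → (∀ i, a i + M i ≤ N ^ K) →
      (({A : Fin k → ℕ | (∀ i, a i < A i ∧ A i ≤ a i + M i) ∧ Rel k N K A}.ncard : ℕ) : ℝ) ≤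
        (N : ℝ) ^ (-δ) * ∏ i, (M i : ℝ)) := by
  refine ⟨?_, ?_⟩
  · obtain ⟨δ, hδ, h1⟩ := Pool.Agent.Y353.PS.pairs_min
    obtain ⟨c, hc, h2⟩ := Pool.Agent.Y353.PS.pairs_all
    refine ⟨δ, c, hδ, hc, fun K => ?_⟩
    obtain ⟨N₁, g1⟩ := h1 K
    obtain ⟨N₂, g2⟩ := h2 K
    refine ⟨max N₁ N₂, fun N hN X Y a b hX hY haX hbY => ⟨?_, ?_⟩⟩
    · have h := g1 N ((le_max_left _ _).trans hN) X Y a b hX hY haX hbY
      refine le_trans (le_of_eq ?_) h
      congr 2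
      ext p
      constructor
      · rintro ⟨⟨h1, h2, h3⟩, x, y, z, C, ⟨h4, h5, h6, h7, h8⟩, h9⟩
        exact ⟨h1, h2, h3, x, y, z, C, h4, h5, h6, h7, h8, h9⟩
      · rintro ⟨h1, h2, h3, x, y, z, C, h4, h5, h6, h7, h8, h9⟩
        exact ⟨⟨h1, h2, h3⟩, x, y, z, C, ⟨h4, h5, h6, h7, h8⟩, h9⟩
    · have h := g2 N ((le_max_right _ _).trans hN) X Y a b hX hY haX hbY
      refine le_trans (le_of_eq ?_) h
      congr 2
      ext p
      constructor
      · rintro ⟨⟨h1, h2, h3⟩, x, y, z, C, h4, h5, h6, h7, h8⟩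
        exact ⟨h1, h2, h3, x, y, z, C, h4, h5, h6, h7, h8⟩
      · rintro ⟨h1, h2, h3, x, y, z, C, h4, h5, h6, h7, h8⟩
        exact ⟨⟨h1, h2, h3⟩, x, y, z, C, h4, h5, h6, h7, h8⟩
  · obtain ⟨δ, hδ, -, h⟩ := Pool.Agent.Y353.PS.tuples
    refine ⟨δ, hδ, fun k K => ?_⟩
    obtain ⟨N₀, g⟩ := h k K
    exact ⟨N₀, fun N hN a M hM haM => g N hN a M hM haM⟩

end Pool.Agent.Results.MP_2738db_nt.PowerSavingPairs
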