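import Pool.Agent.Y353.FD.Top
import Pool.Agent.Y353.FD.Poly

/-!
# The Fermat-Catalan equation for the values of almost all polynomials at given integers

Let `D` be a finite set of at least two integers and let `a 1, …, a k` be distinct integers of absolute
value at least `2`. We show: for all but `exp (-c √L) |D| ^ L` of the `|D| ^ L` polynomials `P` with `L`
coefficients, all in `D`, the values `P (a 1), …, P (a k)` are not zero and

  `u 1 * x 1 + … + u M * x M ≠ 0`

for all elements `x 1, …, x M` of the multiplicative group generated by `P (a 1), …, P (a k)` and all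
integers `u i` of absolute value at most `exp (L ^ (1/2 - ε))` with `u 1 + … + u M ≠ 0`. (For
`u 1 + … + u M = 0` there is the solution `x 1 = … = x M = 1`.) The exponents are unbounded. In
particular, for distinct `a, b, c` and almost all `P`, for instance almost all polynomials with
coefficients `0, 1` or `1, -1`, the equation of Fermat and Catalan with the three bases `P (a)`, `P (b)`,
`P (c)` has no solution at all: `P (a) ^ l + P (b) ^ m ≠ P (c) ^ n` for all exponents.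

The three bases depend on one parameter, the polynomial `P`, and form an extremely thin set of
triples: `|D| ^ L` of them in boxes with sides about `|a| ^ L`, `|b| ^ L`, `|c| ^ L`.

Method. (1) The arithmetic large sieve in dimension `k`, for moduli with many prime factors `t` such
that `t - 1` is smooth, is proved for the images of arbitrary finite sets under maps with small
Fourier coefficients at the rational points with denominators at most `N` (duality). It is applied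
with the local sets of the starting result `RandomUnitEquations` (exponents are reduced modulo the
least common multiple of the `t - 1`). (2) The Fourier coefficients of `P ↦ (P (a 1), …, P (a k))` at
`b / m` are products over the digits; they are small since `∑ b_l a_l ^ i / m` cannot be close to an
integer for `C log m` consecutive `i`: the differences `E - a_l` kill the sequence, and powers of
`a_l` grow.
-/

set_option autoImplicit false

namespace Pool.Agent.Results.MP_2738db_nt.RandomPolynomialValues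

open Finset Pool.Agent.Y353.FD

/-- The value at `y` of the polynomial `∑ ω i X ^ i`. -/
def val {L : ℕ} (ω : Fin L → ℤ) (y : ℤ) : ℤ := ∑ i, ω i * y ^ (i : ℕ)

/-- the general statement, for one number `M` of terms -/
theorem main (D : Finset ℤ) (hD : 2 ≤ D.card) (k : ℕ) (a : Fin k → ℤ) (ha : Function.Injective a)
    (ha2 : ∀ l, 2 ≤ |a l|) : ∃ c : ℝ, 0 < c ∧ ∀ (M : ℕ) (ε : ℝ), 0 < ε → ∃ L₀ : ℕ, ∀ L : ℕ, L₀ ≤ L →
    (({ω : Fin L → ℤ | (∀ i, ω i ∈ D) ∧ ((∃ l, val ω (a l) = 0) ∨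
      ∃ (x : Fin M → Fin k → ℤ) (u : Fin M → ℤ), (∀ i, |(u i : ℝ)| ≤ Real.exp ((L : ℝ) ^ (1 / 2 - ε))) ∧
        ∑ i, u i ≠ 0 ∧ ∑ i, (u i : ℚ) * ∏ l, (val ω (a l) : ℚ) ^ x i l = 0)}.ncard : ℕ) : ℝ) ≤
      Real.exp (-c * √L) * (D.card : ℝ) ^ L := by
  classical
  obtain ⟨d1, h1, d2, h2, hne⟩ := one_lt_card.1 (show 1 < D.card by omega)
  have ha2' : ∀ l, 2 ≤ (a l).natAbs := by
    intro l
    have := ha2 l
    rw [Int.abs_eq_natAbs] at this
    exact_mod_cast this
  have hB : 0 < D.card := by omega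
  refine ⟨c0 k D.card (kap a) / 16, by have := c0_pos k hB (kap_pos a); positivity, ?_⟩
  intro M ε hε
  have hev := digits_exc k (max M 1) (le_max_right _ _) k D.card hB (kap a) (kap_pos a)
    (WdP a (d1 - d2)) (WdP_pos ha ha2' (sub_ne_zero.2 hne)) hε
  obtain ⟨L₀, hL₀⟩ := Filter.eventually_atTop.1 hev
  refine ⟨L₀, fun L hL => ?_⟩
  have h := hL₀ L hL (fun _ : Fin L => D) (vP a L) (manyGood_poly a ha2' L D h1 h2 hne)
  rw [Fintype.card_piFinset_const] at h
  push_cast at h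
  rw [neg_mul] at h ⊢
  refine le_trans ?_ h
  rw [← Set.ncard_coe_finset]
  apply Nat.cast_le.2
  apply Set.ncard_le_ncard _ (Finset.finite_toSet _)
  intro ω hω
  obtain ⟨hωD, hω⟩ := hω
  have hval : ∀ l, lin (vP a L) ω l = val ω (a l) := fun l => rfl
  rw [mem_coe, mem_filter]
  refine ⟨Fintype.mem_piFinset.2 hωD, ?_⟩
  rcases hω with ⟨l, hl⟩ | ⟨x, u, h3, h4, h5⟩
  · exact Or.inl ⟨l, by rw [hval]; exact hl⟩
  · rcases Nat.eq_zero_or_pos M with rfl | hM
    · simp at h4
    · right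
      rw [max_eq_left hM]
      exact ⟨x, u, h3, h4, h5⟩

/-- The (generalised) Fermat-Catalan equation, the case `k = M = 3` of `result`. -/
theorem part2 (D : Finset ℤ) (hD : 2 ≤ D.card) (a₁ a₂ a₃ : ℤ) (h1 : 2 ≤ |a₁|) (h2 : 2 ≤ |a₂|)
    (h3 : 2 ≤ |a₃|) (h12 : a₁ ≠ a₂) (h13 : a₁ ≠ a₃) (h23 : a₂ ≠ a₃) : ∃ c : ℝ, 0 < c ∧
    ∀ ε : ℝ, 0 < ε → ∃ L₀ : ℕ, ∀ L : ℕ, L₀ ≤ L →
      (({ω : Fin L → ℤ | (∀ i, ω i ∈ D) ∧ ∃ (α β γ : ℤ) (l m n : ℕ),
          |(α : ℝ)| ≤ Real.exp ((L : ℝ) ^ (1 / 2 - ε)) ∧ |(β : ℝ)| ≤ Real.exp ((L : ℝ) ^ (1 / 2 - ε)) ∧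
          |(γ : ℝ)| ≤ Real.exp ((L : ℝ) ^ (1 / 2 - ε)) ∧ α + β ≠ γ ∧
          α * val ω a₁ ^ l + β * val ω a₂ ^ m = γ * val ω a₃ ^ n}.ncard : ℕ) : ℝ) ≤
        Real.exp (-c * √L) * (D.card : ℝ) ^ L := by
  have hinj : Function.Injective ![a₁, a₂, a₃] := by
    intro i j hij
    fin_cases i <;> fin_cases j <;> simp_all
  obtain ⟨c, hc, h⟩ := main D hD 3 ![a₁, a₂, a₃] hinj (by
    intro l
    fin_cases l
    · exact h1
    · exact h2
    · exact h3)
  refine ⟨c, hc, fun ε hε => ?_⟩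
  obtain ⟨L₀, hL₀⟩ := h 3 ε hε
  refine ⟨L₀, fun L hL => le_trans ?_ (hL₀ L hL)⟩
  apply Nat.cast_le.2
  apply Set.ncard_le_ncard
  · rintro ω ⟨hω, α, β, γ, l, m, n, e1, e2, e3, e4, e5⟩
    refine ⟨hω, Or.inr ⟨![![(l : ℤ), 0, 0], ![0, (m : ℤ), 0], ![0, 0, (n : ℤ)]], ![α, β, -γ],
      ?_, ?_, ?_⟩⟩
    · intro i; fin_cases i
      · exact e1
      · exact e2
      · simpa using e3
    · rw [Fin.sum_univ_three]
      simp only [Matrix.cons_val_zero, Matrix.cons_val_one, Matrix.cons_val]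
      intro h6
      apply e4
      linarith
    · have h6 : (α : ℚ) * (val ω a₁ : ℚ) ^ l + β * (val ω a₂ : ℚ) ^ m = γ * (val ω a₃ : ℚ) ^ n := by
        exact_mod_cast e5
      simp only [Fin.sum_univ_three, Fin.prod_univ_three, Matrix.cons_val_zero,
        Matrix.cons_val_one, Matrix.cons_val, zpow_natCast, zpow_zero]
      push_cast
      linarith
  · apply Set.Finite.subset (Finset.finite_toSet (Fintype.piFinset (fun _ : Fin L => D)))
    rintro ω ⟨hω, _⟩
    rw [mem_coe, Fintype.mem_piFinset]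
    exact hω

/-- **Main theorem.** -/
theorem result : ∀ D : Finset ℤ, 2 ≤ D.card → ∀ (k : ℕ) (a : Fin k → ℤ), Function.Injective a →
    (∀ l, 2 ≤ |a l|) → ∃ c : ℝ, 0 < c ∧ ∀ (M : ℕ) (ε : ℝ), 0 < ε → ∃ L₀ : ℕ, ∀ L : ℕ, L₀ ≤ L →
    (({ω : Fin L → ℤ | (∀ i, ω i ∈ D) ∧ ((∃ l, val ω (a l) = 0) ∨
      ∃ (x : Fin M → Fin k → ℤ) (u : Fin M → ℤ),
        (∀ i, |(u i : ℝ)| ≤ Real.exp ((L : ℝ) ^ (1 / 2 - ε))) ∧
        ∑ i, u i ≠ 0 ∧ ∑ i, (u i : ℚ) * ∏ l, (val ω (a l) : ℚ) ^ x i l = 0)}.ncard : ℕ) : ℝ) ≤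
      Real.exp (-c * √L) * (D.card : ℝ) ^ L :=
  fun D hD k a ha ha2 => main D hD k a ha ha2

end Pool.Agent.Results.MP_2738db_nt.RandomPolynomialValues
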